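import Pool.Agent.Helper84.Kos.Goals2
import Pool.Agent.Helper11.Gap.Polycyclic

set_option autoImplicit false

/-! Descending chains of subgroups in finitely generated nilpotent groups. -/

namespace Pool.Agent.Helper36.Kos

open Pool.Agent.Helper84.Kos Pool.Agent.Helper11.Gap
open scoped commutatorElement

variable {G : Type*} [Group G]

/-- Finitely many left cosets of `A` cover `B`. -/
def FI (A B : Subgroup G) : Prop := ∃ T : Finset G, ∀ b ∈ B, ∃ t ∈ T, t⁻¹ * b ∈ A

theorem FI.relIndex_ne_zero {A B : Subgroup G} (h : FI A B) : A.relIndex B ≠ 0 := by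
  classical
  obtain ⟨T, hT⟩ := h
  choose! t ht1 ht2 using hT
  have hfin : Finite (B ⧸ A.subgroupOf B) := by
    refine Finite.of_injective (β := T)
      (fun q => ⟨t (q.out : B), ht1 _ (q.out : B).2⟩) ?_
    intro q q' hqq
    simp only [Subtype.mk.injEq] at hqq
    have h1 := ht2 _ (q.out : B).2
    have h2 := ht2 _ (q'.out : B).2
    rw [hqq] at h1
    have h3 := A.mul_mem (A.inv_mem h1) h2
    have h4 : ((t (q'.out : B))⁻¹ * ((q.out : B) : G))⁻¹ * ((t (q'.out : B))⁻¹ * ((q'.out : B) : G)) =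
        ((q.out : B) : G)⁻¹ * ((q'.out : B) : G) := by group
    rw [h4] at h3
    rw [← QuotientGroup.out_eq' q, ← QuotientGroup.out_eq' q', QuotientGroup.eq]
    rw [Subgroup.mem_subgroupOf]
    simpa using h3
  rw [Subgroup.relIndex]
  exact Subgroup.index_ne_zero_of_finite

theorem mem_sup_of_le_normalizer {A K : Subgroup G}
    (hA : ∀ a ∈ A, ∀ x ∈ K, a * x * a⁻¹ ∈ K) {x : G} (hx : x ∈ A ⊔ K) :
    ∃ k ∈ K, ∃ a ∈ A, x = k * a := by
  let T : Subgroup G :=
    { carrier := {x | ∃ k ∈ K, ∃ a ∈ A, x = k * a}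
      mul_mem' := by
        rintro _ _ ⟨k, hk, a, ha, rfl⟩ ⟨k', hk', a', ha', rfl⟩
        refine ⟨k * (a * k' * a⁻¹), K.mul_mem hk (hA a ha k' hk'), a * a', A.mul_mem ha ha', ?_⟩
        group
      one_mem' := ⟨1, K.one_mem, 1, A.one_mem, by simp⟩
      inv_mem' := by
        rintro _ ⟨k, hk, a, ha, rfl⟩
        refine ⟨a⁻¹ * k⁻¹ * a⁻¹⁻¹, hA a⁻¹ (A.inv_mem ha) _ (K.inv_mem hk), a⁻¹, A.inv_mem ha, ?_⟩
        group }
  have hle : A ⊔ K ≤ T := by
    refine sup_le ?_ ?_
    · intro a ha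
      exact ⟨1, K.one_mem, a, ha, by simp⟩
    · intro k hk
      exact ⟨k, hk, 1, A.one_mem, by simp⟩
  exact hle hx

theorem FI.combine {A B K : Subgroup G} (hAB : A ≤ B)
    (hA : ∀ a ∈ A, ∀ x ∈ K, a * x * a⁻¹ ∈ K) (h1 : FI (A ⊓ K) (B ⊓ K)) (h2 : FI (A ⊔ K) B) :
    FI A B := by
  classical
  obtain ⟨T1, hT1⟩ := h1
  obtain ⟨T2, hT2⟩ := h2
  -- a representative in `B` for every `t ∈ T2` which is used
  let r : G → G := fun t => if h : ∃ b ∈ B, t⁻¹ * b ∈ A ⊔ K then h.choose else 1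
  refine ⟨(T2 ×ˢ T1).image fun p => r p.1 * p.2, fun b hb => ?_⟩
  obtain ⟨t, ht, htb⟩ := hT2 b hb
  have hex : ∃ b ∈ B, t⁻¹ * b ∈ A ⊔ K := ⟨b, hb, htb⟩
  have hr : r t ∈ B ∧ t⁻¹ * r t ∈ A ⊔ K := by
    simp only [r, hex, dite_true]
    exact hex.choose_spec
  have h3 : (r t)⁻¹ * b ∈ A ⊔ K := by
    have := (A ⊔ K).mul_mem ((A ⊔ K).inv_mem hr.2) htb
    have e : (t⁻¹ * r t)⁻¹ * (t⁻¹ * b) = (r t)⁻¹ * b := by group
    rwa [e] at this
  obtain ⟨k, hk, a, ha, hka⟩ := mem_sup_of_le_normalizer hA h3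
  have hkB : k ∈ B := by
    have : k = (r t)⁻¹ * b * a⁻¹ := by rw [hka]; group
    rw [this]
    exact B.mul_mem (B.mul_mem (B.inv_mem hr.1) hb) (B.inv_mem (hAB ha))
  obtain ⟨t1, ht1, htk⟩ := hT1 k ⟨hkB, hk⟩
  refine ⟨r t * t1, ?_, ?_⟩
  · exact Finset.mem_image.2 ⟨(t, t1), Finset.mem_product.2 ⟨ht, ht1⟩, rfl⟩
  · have e : (r t * t1)⁻¹ * b = (t1⁻¹ * k) * a := by
      rw [mul_inv_rev, mul_assoc, hka]
      group
    rw [e]
    exact A.mul_mem htk.1 ha

/-- Every descending chain in `K` has eventually finite indices. -/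
def PP (K : Subgroup G) : Prop :=
  ∀ S : ℕ → Subgroup G, Antitone S → (∀ m, S m ≤ K) → ∃ m0, ∀ m ≥ m0, FI (S (m + 1)) (S m)

theorem PP_bot : PP (⊥ : Subgroup G) := by
  intro S _ hS
  refine ⟨0, fun m _ => ⟨{1}, fun b hb => ⟨1, by simp, ?_⟩⟩⟩
  have : b = 1 := by simpa using hS m hb
  subst this
  simp

theorem PP.step {K : Subgroup G} (h : PP K) {g : G} (hg : ∀ x, x ∈ K ↔ g * x * g⁻¹ ∈ K) :
    PP (K ⊔ Subgroup.zpowers g) := by
  classical
  have hgn : g ∈ Subgroup.normalizer (K : Set G) := by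
    rw [Subgroup.mem_normalizer_iff]
    exact hg
  have hnorm : ∀ y ∈ K ⊔ Subgroup.zpowers g, ∀ x ∈ K, y * x * y⁻¹ ∈ K := by
    have hle : K ⊔ Subgroup.zpowers g ≤ Subgroup.normalizer (K : Set G) := by
      refine sup_le Subgroup.le_normalizer ?_
      rw [Subgroup.zpowers_le]
      exact hgn
    intro y hy x hx
    exact ((Subgroup.mem_normalizer_iff.1 (hle hy)) x).1 hx
  have hgz : ∀ n : ℤ, ∀ x ∈ K, g ^ n * x * (g ^ n)⁻¹ ∈ K := fun n x hx =>
    hnorm _ (le_sup_right (a := K) (Subgroup.zpow_mem_zpowers g n)) x hx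
  have hmem : ∀ x ∈ K ⊔ Subgroup.zpowers g, ∃ k ∈ K, ∃ n : ℤ, x = k * g ^ n := by
    intro x hx
    rw [sup_comm] at hx
    obtain ⟨k, hk, a, ha, rfl⟩ := mem_sup_of_le_normalizer (A := Subgroup.zpowers g) (K := K)
      (fun a ha x hx => hnorm a (le_sup_right (a := K) ha) x hx) hx
    obtain ⟨n, rfl⟩ := Subgroup.mem_zpowers_iff.1 ha
    exact ⟨k, hk, n, rfl⟩
  intro S hanti hS
  obtain ⟨m1, hm1⟩ := h (fun m => S m ⊓ K) (fun a b hab => inf_le_inf_right K (hanti hab))
    (fun m => inf_le_right)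
  by_cases hcase : ∃ m2, S m2 ≤ K
  · obtain ⟨m2, hm2⟩ := hcase
    refine ⟨max m1 m2, fun m hm => ?_⟩
    have h1 := hm1 m ((le_max_left _ _).trans hm)
    have h2 : S m ≤ K := (hanti ((le_max_right _ _).trans hm)).trans hm2
    have h3 : S (m + 1) ≤ K := (hanti (Nat.le_succ m)).trans h2
    simpa [inf_eq_left.2 h2, inf_eq_left.2 h3] using h1
  · refine ⟨m1, fun m hm => ?_⟩
    have h1 := hm1 m hm
    refine FI.combine (K := K) (hanti (Nat.le_succ m))
      (fun a ha x hx => hnorm a (hS _ ha) x hx) h1 ?_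
    have h2 : ¬ S (m + 1) ≤ K := fun hle => hcase ⟨m + 1, hle⟩
    obtain ⟨x, hx, hxK⟩ := SetLike.not_le_iff_exists.1 h2
    obtain ⟨k, hk, n, hxn⟩ := hmem x (hS _ hx)
    have hn : n ≠ 0 := by
      rintro rfl
      apply hxK
      rw [hxn]
      simpa using hk
    have hgn' : g ^ n ∈ S (m + 1) ⊔ K := by
      have : g ^ n = k⁻¹ * x := by rw [hxn]; group
      rw [this]
      exact (S (m + 1) ⊔ K).mul_mem (le_sup_right (a := S (m + 1)) (K.inv_mem hk))
        (le_sup_left (b := K) hx)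
    refine ⟨(Finset.range n.natAbs).image fun i : ℕ => g ^ i, fun b hb => ?_⟩
    obtain ⟨k', hk', j, rfl⟩ := hmem b (hS _ hb)
    have hr0 : 0 ≤ j % n := Int.emod_nonneg j hn
    have hrn : j % n < n.natAbs := by
      rw [← Int.abs_eq_natAbs]
      exact Int.emod_lt_abs j hn
    refine ⟨g ^ (j % n).toNat, ?_, ?_⟩
    · refine Finset.mem_image.2 ⟨(j % n).toNat, ?_, rfl⟩
      rw [Finset.mem_range]
      omega
    · have e0 : g ^ (j % n).toNat = g ^ (j % n) := by
        rw [← zpow_natCast, Int.toNat_of_nonneg hr0]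
      have e1 : (g ^ (j % n).toNat)⁻¹ * (k' * g ^ j) =
          (g ^ (-(j % n)) * k' * (g ^ (-(j % n)))⁻¹) * (g ^ n) ^ (j / n) := by
        rw [e0, ← zpow_mul]
        have e2 : j = j % n + n * (j / n) := (Int.emod_add_mul_ediv j n).symm
        conv_lhs => rw [e2]
        rw [zpow_add, zpow_neg]
        simp only [Int.add_mul_emod_self_left, Int.emod_emod_of_dvd, dvd_refl]
        group
      rw [e1]
      exact (S (m + 1) ⊔ K).mul_mem (le_sup_right (a := S (m + 1)) (hgz _ _ hk'))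
        ((S (m + 1) ⊔ K).zpow_mem hgn' _)

theorem PP_of_hasChain {K : Subgroup G} (h : HasChain K) : PP K := by
  obtain ⟨n, H, h0, hn, hs⟩ := h
  have : ∀ i ≤ n, PP (H i) := by
    intro i
    induction i with
    | zero => intro _; rw [h0]; exact PP_bot
    | succ i ih =>
      intro hi
      obtain ⟨g, hg, he⟩ := hs i (Nat.lt_of_succ_le hi)
      rw [he]
      exact (ih (Nat.le_of_succ_le hi)).step hg
  rw [← hn]
  exact this n le_rfl

/-- The lower central factors of a finitely generated group are finitely generated. -/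
theorem lcs_gen (hG : Group.FG G) (i : ℕ) : ∃ X : Finset G,
    (∀ x ∈ X, x ∈ (⊤ : Subgroup G).lowerCentralSeries i) ∧
    (⊤ : Subgroup G).lowerCentralSeries i ≤
      Subgroup.closure (X : Set G) ⊔ (⊤ : Subgroup G).lowerCentralSeries (i + 1) := by
  classical
  obtain ⟨S, hS⟩ := Group.fg_def.1 hG
  induction i with
  | zero =>
    refine ⟨S, fun x _ => Subgroup.mem_top x, ?_⟩
    rw [hS]
    simp
  | succ i ih =>
    obtain ⟨X, hX, hgen⟩ := ih
    set Γ1 := (⊤ : Subgroup G).lowerCentralSeries (i + 1) with hΓ1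
    set Γ2 := (⊤ : Subgroup G).lowerCentralSeries (i + 1 + 1) with hΓ2
    have hΓ2' : Γ2 = ⁅Γ1, ⊤⁆ := rfl
    have hΓ1' : Γ1 = ⁅(⊤ : Subgroup G).lowerCentralSeries i, ⊤⁆ := rfl
    have h21 : Γ2 ≤ Γ1 := (⊤ : Subgroup G).lowerCentralSeries_antitone (Nat.le_succ _)
    let X' : Finset G := (X ×ˢ S).image fun p => ⁅p.1, p.2⁆
    have hX' : ∀ x ∈ X', x ∈ Γ1 := by
      intro x hx
      obtain ⟨⟨a, s⟩, hp, rfl⟩ := Finset.mem_image.1 hx
      exact Subgroup.commutator_mem_commutator (hX a (Finset.mem_product.1 hp).1)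
        (Subgroup.mem_top s)
    refine ⟨X', hX', ?_⟩
    set T := Subgroup.closure (X' : Set G) ⊔ Γ2 with hT
    have hT1 : T ≤ Γ1 := sup_le ((Subgroup.closure_le _).2 hX') h21
    have hTn : T.Normal := by
      constructor
      intro t ht g
      have e : g * t * g⁻¹ = ⁅t, g⁆⁻¹ * t := by
        rw [commutatorElement_def]; group
      rw [e]
      refine T.mul_mem (T.inv_mem (le_sup_right (a := Subgroup.closure (X' : Set G)) ?_)) ht
      exact Subgroup.commutator_mem_commutator (hT1 ht) (Subgroup.mem_top g)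
    let π := QuotientGroup.mk' T
    have hker : ∀ x, π x = 1 ↔ x ∈ T := fun x => by
      rw [← MonoidHom.mem_ker, QuotientGroup.ker_mk']
    have hcomm : ∀ x g : G, ⁅x, g⁆ ∈ T → π x * π g = π g * π x := by
      intro x g hxg
      have := (hker _).2 hxg
      rw [map_commutatorElement, commutatorElement_eq_one_iff_mul_comm] at this
      exact this
    have hcenter : ∀ x : G, (∀ s ∈ S, ⁅x, s⁆ ∈ T) → π x ∈ Subgroup.center (G ⧸ T) := by
      intro x hx
      rw [Subgroup.mem_center_iff]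
      intro q
      obtain ⟨g, rfl⟩ := QuotientGroup.mk'_surjective T q
      have hle : (⊤ : Subgroup G) ≤ (Subgroup.centralizer {π x}).comap π := by
        rw [← hS, Subgroup.closure_le]
        intro s hs
        simp only [SetLike.mem_coe, Subgroup.mem_comap, Subgroup.mem_centralizer_singleton_iff]
        exact (hcomm x s (hx s hs)).symm
      have := hle (Subgroup.mem_top g)
      simp only [Subgroup.mem_comap, Subgroup.mem_centralizer_singleton_iff] at this
      exact this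
    have hall : (⊤ : Subgroup G).lowerCentralSeries i ≤ (Subgroup.center (G ⧸ T)).comap π := by
      refine hgen.trans (sup_le ((Subgroup.closure_le _).2 ?_) ?_)
      · intro x hx
        refine hcenter x fun s hs => ?_
        refine le_sup_left (b := Γ2) (Subgroup.subset_closure ?_)
        exact Finset.mem_coe.2 (Finset.mem_image.2 ⟨(x, s), Finset.mem_product.2 ⟨hx, hs⟩, rfl⟩)
      · intro x hx
        refine hcenter x fun s _ => ?_
        exact le_sup_right (a := Subgroup.closure (X' : Set G))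
          (Subgroup.commutator_mem_commutator hx (Subgroup.mem_top s))
    rw [hΓ1', Subgroup.commutator_le]
    intro x hx g _
    rw [← hker, map_commutatorElement, commutatorElement_eq_one_iff_mul_comm]
    exact ((Subgroup.mem_center_iff.1 (hall hx)) (π g)).symm

theorem hasChain_top (hG : Group.FG G) {c : ℕ}
    (hc : (⊤ : Subgroup G).lowerCentralSeries c = ⊥) : HasChain (⊤ : Subgroup G) := by
  classical
  have key : ∀ j ≤ c, ((⊤ : Subgroup G).lowerCentralSeries (c - j)).FG ∧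
      HasChain ((⊤ : Subgroup G).lowerCentralSeries (c - j)) := by
    intro j
    induction j with
    | zero =>
      intro _
      rw [Nat.sub_zero, hc]
      exact ⟨⟨∅, by simp⟩, hasChain_bot⟩
    | succ j ih =>
      intro hj
      obtain ⟨⟨Y, hY⟩, h2⟩ := ih (Nat.le_of_succ_le hj)
      have e : c - j = (c - (j + 1)) + 1 := by omega
      rw [e] at hY h2
      obtain ⟨X, hX, hgen⟩ := lcs_gen hG (c - (j + 1))
      have hanti := (⊤ : Subgroup G).lowerCentralSeries_antitone (Nat.le_succ (c - (j + 1)))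
      have hFG : ((⊤ : Subgroup G).lowerCentralSeries (c - (j + 1))).FG := by
        refine ⟨X ∪ Y, ?_⟩
        rw [Finset.coe_union, Subgroup.closure_union, hY]
        exact le_antisymm (sup_le ((Subgroup.closure_le _).2 hX) hanti) hgen
      exact ⟨hFG, h2.extend hanti hFG (Subgroup.commutator_mono le_rfl le_top)⟩
  have := (key c le_rfl).2
  simpa using this

theorem stmtG5 : StmtG5 := by
  intro G _ c hG hc S hS
  obtain ⟨m0, hm0⟩ := PP_of_hasChain (hasChain_top hG hc) S hS (fun _ => le_top)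
  exact ⟨m0, (hm0 m0 le_rfl).relIndex_ne_zero⟩

end Pool.Agent.Helper36.Kos
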